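import Pool.Agent.H4.SOR.Targets

/-!
# NZ: abelian defect groups, the characters of the block do not vanish on the cosets `u K`
-/

open scoped Classical ComplexConjugate

namespace Pool.Agent.H4.SOR.NZ

open AMc AMe AMt Pool.Agent.H77.EA.All Pool.Agent.H54.T2.X0

/-- uniqueness of the decomposition into commuting elements of `ℓ`-power order and of order prime
to `ℓ` -/
theorem dec_unique {ℓ : ℕ} (hℓ : ℓ.Prime) {Γ : Type} [Group Γ] [Finite Γ] {a b c d : Γ}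
    {i j : ℕ} (ha : a ^ (ℓ ^ i) = 1) (hc : c ^ (ℓ ^ j) = 1) (hb : ¬ ℓ ∣ orderOf b)
    (hd : ¬ ℓ ∣ orderOf d) (hab : a * b = b * a) (hcd : c * d = d * c) (h : a * b = c * d) :
    a = c ∧ b = d := by
  have hcop : (ℓ ^ (i + j)).Coprime (orderOf b * orderOf d) := by
    apply Nat.Coprime.pow_left
    rw [Nat.Prime.coprime_iff_not_dvd hℓ]
    intro h1
    rcases (Nat.Prime.dvd_mul hℓ).1 h1 with h2 | h2
    · exact hb h2
    · exact hd h2
  obtain ⟨n, hn1, hn2⟩ := Nat.chineseRemainder hcop 1 0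
  have ha' : a ^ (ℓ ^ (i + j)) = 1 := by rw [pow_add, pow_mul, ha, one_pow]
  have hc' : c ^ (ℓ ^ (i + j)) = 1 := by rw [pow_add, mul_comm (ℓ ^ i), pow_mul, hc, one_pow]
  have key : ∀ g : Γ, g ^ (ℓ ^ (i + j)) = 1 → g ^ n = g := by
    intro g hg
    have h1 : g ^ n = g ^ 1 := by
      rw [pow_eq_pow_iff_modEq]
      exact hn1.of_dvd (orderOf_dvd_of_pow_eq_one hg)
    rw [h1, pow_one]
  have hdvd : orderOf b * orderOf d ∣ n := (Nat.modEq_zero_iff_dvd).1 hn2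
  have hbn : b ^ n = 1 := orderOf_dvd_iff_pow_eq_one.1 ((Dvd.intro _ rfl).trans hdvd)
  have hdn : d ^ n = 1 := orderOf_dvd_iff_pow_eq_one.1 ((Dvd.intro_left _ rfl).trans hdvd)
  have h1 : (a * b) ^ n = a := by
    rw [(show Commute a b from hab).mul_pow, key a ha', hbn, mul_one]
  have h2 : (c * d) ^ n = c := by
    rw [(show Commute c d from hcd).mul_pow, key c hc', hdn, mul_one]
  have h3 : a = c := by rw [← h1, h, h2]
  refine ⟨h3, ?_⟩
  rw [h3] at h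
  exact mul_left_cancel h

/-- a defect class of elements of order prime to `ℓ` inside `K` -/
theorem x1 (F : Type) [Field F] (π : integralClosure ℤ ℂ →+* F) (hπ : Function.Surjective π)
    (ℓ : ℕ) [Fact ℓ.Prime] [CharP F ℓ] (Γ : Type) [Group Γ] [Fintype Γ] (K Y D : Subgroup Γ)
    (hn : NIn K Y) (hKD : ∀ g ∈ Y, ∃ k ∈ K, ∃ d ∈ D, g = k * d) (ξ : Γ → ℂ) (hξ : ξ ∈ IrrS Y)
    (hD : DefH ℓ Y (lam π ξ) D) : ∃ x₀ ∈ K, ¬ ℓ ∣ orderOf x₀ ∧
      D ≤ Subgroup.centralizer {x₀} ∧ ¬ ℓ ∣ D.relIndex (Subgroup.centralizer {x₀} ⊓ Y) ∧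
      lam π ξ (csum F (cls Y x₀)) ≠ 0 := by
  have hℓp : ℓ.Prime := Fact.out
  obtain ⟨n0, hn0⟩ := (Pool.Agent.H10.T2.All.fKS F π hπ ℓ Γ K Y D hn hKD ξ hξ hD).1
  obtain ⟨hDp, hDY, ⟨x1, hx1Y, hx1ne, hx1D, hx1S⟩, hlast⟩ := hD
  have hh : CHom Y (lam π ξ) := fB1 F π hπ Γ Y ξ hξ
  set c : MonoidAlgebra F Γ := csum F (cls Y x1) with hc
  have hcZ : c ∈ ZA F Y Y := csum_cls_mem_self hx1Y
  have hx1SD : x1 ∈ SD ℓ Y (conjs Y D) := mem_SD_of_sylow hDp hDY hx1Y hx1D hx1S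
  have hcSD : ∀ g, c.coeff g ≠ 0 → g ∈ SD ℓ Y (conjs Y D) := by
    intro g hg
    rw [hc, coeff_csum] at hg
    have hg' : g ∈ cls Y x1 := by
      by_contra h
      exact hg (if_neg h)
    obtain ⟨u, hu, rfl⟩ := mem_cls.1 hg'
    exact SD_conj (self_conj hu) (conjs_closed hu) hx1SD
  obtain ⟨k, hk⟩ := fRS F ℓ Γ Y c hcZ
  obtain ⟨m, hm⟩ : ∃ m, ℓ ^ k = m + 1 := ⟨ℓ ^ k - 1, by have := pow_pos hℓp.pos k; omega⟩
  have hpSD : ∀ g, (c ^ (ℓ ^ k)).coeff g ≠ 0 → g ∈ SD ℓ Y (conjs Y D) := by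
    rw [hm, pow_succ']
    exact fC2 F ℓ Γ Y (conjs Y D) c hcZ (c ^ m) ((ZA F Y Y).pow_mem hcZ m) hcSD
  have hne : lam π ξ (c ^ (ℓ ^ k)) ≠ 0 := by
    rw [hh.map_pow hcZ]
    exact pow_ne_zero _ hx1ne
  obtain ⟨x2, hx2Y, hx2c, hx2ne⟩ := hh.exists_cls le_rfl le_rfl (nor_self Y)
    ((ZA F Y Y).pow_mem hcZ _) hne
  have hreg : ¬ ℓ ∣ orderOf x2 := hk x2 hx2c
  -- `x2 ∈ K`
  have hx2K : x2 ∈ K := by
    have hnor : (K.subgroupOf Y).Normal := by
      constructor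
      intro a ha b
      rw [Subgroup.mem_subgroupOf] at ha ⊢
      exact hn.nor b b.2 a ha
    have h1 : (⟨x2, hx2Y⟩ : Y) ^ (K.relIndex Y) ∈ K.subgroupOf Y :=
      Subgroup.pow_index_mem (K.subgroupOf Y) (⟨x2, hx2Y⟩ : Y)
    rw [Subgroup.mem_subgroupOf] at h1
    have h2 : x2 ^ (ℓ ^ n0) ∈ K := by rw [← hn0]; exact h1
    have hcop : (ℓ ^ n0).Coprime (orderOf x2) :=
      Nat.Coprime.pow_left _ ((Nat.Prime.coprime_iff_not_dvd hℓp).2 hreg)
    obtain ⟨a, ha⟩ := exists_pow_eq_self_of_coprime hcop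
    rw [← ha]
    exact K.pow_mem h2 a
  obtain ⟨u, hu, hud⟩ := hlast x2 hx2Y hx2ne
  set x0 : Γ := u⁻¹ * x2 * u with hx0
  have hu' : u⁻¹ ∈ Y := Y.inv_mem hu
  have hx0K : x0 ∈ K := by
    have := hn.nor u⁻¹ hu' x2 hx2K
    simpa [hx0] using this
  have hx0D : D ≤ Subgroup.centralizer {x0} := by
    intro d hd
    have h1 := hud d hd
    rw [Subgroup.mem_centralizer_singleton_iff] at h1 ⊢
    have e1 : d * x0 = u⁻¹ * (u * d * u⁻¹ * x2) * u := by rw [hx0]; group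
    rw [e1, h1, hx0]; group
  have hx0cls : x0 ∈ cls Y x2 := mem_cls.2 ⟨u⁻¹, hu', by rw [hx0]; simp⟩
  have hx0SD : x0 ∈ SD ℓ Y (conjs Y D) := by
    have := SD_conj (self_conj hu') (conjs_closed hu') (hpSD x2 hx2c)
    simpa [hx0] using this
  have hx0ne : lam π ξ (csum F (cls Y x0)) ≠ 0 := by rw [cls_eq_of_mem hx0cls]; exact hx2ne
  have hreg0 : ¬ ℓ ∣ orderOf x0 := by
    have h1 : x0 = MulAut.conj u⁻¹ x2 := by rw [hx0]; simp
    rw [h1, MulEquiv.orderOf_eq]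
    exact hreg
  -- `D` is a Sylow subgroup of the centraliser of `x0` in `Y`
  have hDC : D ≤ Subgroup.centralizer {x0} ⊓ Y := le_inf hx0D hDY
  have hsyl : ¬ ℓ ∣ D.relIndex (Subgroup.centralizer {x0} ⊓ Y) := by
    set C := Subgroup.centralizer {x0} ⊓ Y with hC
    have hDKp : IsPGroup ℓ (D.subgroupOf C) := hDp.comap_of_injective _ Subtype.val_injective
    obtain ⟨T, hT⟩ := hDKp.exists_le_sylow
    set R : Subgroup Γ := (T : Subgroup C).map C.subtype with hR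
    have hRp : IsPGroup ℓ R := T.isPGroup'.map _
    have hRC : R ≤ C := by
      rintro _ ⟨t, _, rfl⟩
      exact t.2
    have hRY : R ≤ Y := hRC.trans inf_le_right
    obtain ⟨E, ⟨v, hv, rfl⟩, hRE⟩ := hx0SD.2 R hRp hRY (hRC.trans inf_le_left)
    have hcard : Nat.card R ≤ Nat.card D := by
      calc Nat.card R ≤ Nat.card (D.map (MulAut.conj v).toMonoidHom) :=
            Nat.card_le_card_of_injective _ (Subgroup.inclusion_injective hRE)
        _ = Nat.card D :=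
            Nat.card_congr (D.equivMapOfInjective _ (MulAut.conj v).injective).toEquiv.symm
    have hDR : D ≤ R := by
      intro d hd
      exact ⟨⟨d, hDC hd⟩, hT (Subgroup.mem_subgroupOf.2 hd), rfl⟩
    have hRD : D = R := Subgroup.eq_of_le_of_card_ge hDR hcard
    have hTeq : D.subgroupOf C = T := by
      apply le_antisymm hT
      intro t ht
      rw [Subgroup.mem_subgroupOf, hRD]
      exact ⟨t, ht, rfl⟩
    show ¬ ℓ ∣ (D.subgroupOf C).index
    rw [hTeq]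
    exact T.not_dvd_index
  exact ⟨x0, hx0K, hreg0, hx0D, hsyl, hx0ne⟩

section

variable {Γ : Type} [Group Γ] [Fintype Γ] {F : Type} [Field F] {π : integralClosure ℤ ℂ →+* F}

theorem hom_zero {N : Subgroup Γ} {h : MonoidAlgebra F Γ → F} (hh : CHom N h) : h 0 = 0 := by
  have := hh.map_smul 0 0 (ZA F N N).zero_mem
  rwa [smul_zero, zero_mul] at this

theorem hom_sum {N : Subgroup Γ} {h : MonoidAlgebra F Γ → F} (hh : CHom N h) {ι : Type}
    (s : Finset ι) (z : ι → MonoidAlgebra F Γ) (hz : ∀ i ∈ s, z i ∈ ZA F N N) :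
    h (∑ i ∈ s, z i) = ∑ i ∈ s, h (z i) := by
  induction s using Finset.induction_on with
  | empty => simpa using hom_zero hh
  | insert a s ha ih =>
    rw [Finset.sum_insert ha, Finset.sum_insert ha, hh.map_add _ (hz a (Finset.mem_insert_self a s))
      _ ((ZA F N N).sum_mem fun i hi => hz i (Finset.mem_insert_of_mem hi)),
      ih fun i hi => hz i (Finset.mem_insert_of_mem hi)]

/-- the value at a central element of `ℓ`-power order -/
theorem hom_single {ℓ : ℕ} [Fact ℓ.Prime] [CharP F ℓ] {N : Subgroup Γ}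
    {h : MonoidAlgebra F Γ → F} (hh : CHom N h) {v : Γ} (hv : v ∈ N)
    (hvc : ∀ g ∈ N, g * v = v * g) {i : ℕ} (hvi : v ^ (ℓ ^ i) = 1) :
    (MonoidAlgebra.single v 1 : MonoidAlgebra F Γ) ∈ ZA F N N ∧
      h (MonoidAlgebra.single v 1) = 1 := by
  have hz : (MonoidAlgebra.single v 1 : MonoidAlgebra F Γ) ∈ ZA F N N := by
    refine ⟨fun g hg => ?_, fun u hu g => ?_⟩
    · rw [MonoidAlgebra.coeff_single, Finsupp.single_apply, if_neg]
      rintro rfl
      exact hg hv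
    · rw [MonoidAlgebra.coeff_single, Finsupp.single_apply, Finsupp.single_apply]
      have : (v = u * g * u⁻¹) ↔ (v = g) := by
        constructor
        · intro h1
          have h2 : g = u⁻¹ * v * u := by rw [h1]; group
          rw [h2]
          have h3 := hvc u hu
          calc v = u⁻¹ * (u * v) := by group
            _ = u⁻¹ * (v * u) := by rw [h3]
            _ = u⁻¹ * v * u := by group
        · rintro rfl
          rw [hvc u hu]; group
      simp only [this]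
  refine ⟨hz, ?_⟩
  have h1 : h (MonoidAlgebra.single v 1) ^ (ℓ ^ i) = 1 := by
    rw [← hh.map_pow hz, MonoidAlgebra.single_pow, hvi, one_pow]
    exact hh.map_one
  have h2 : (h (MonoidAlgebra.single v 1) - 1) ^ (ℓ ^ i) = 0 := by
    rw [sub_pow_char_pow, h1, one_pow, sub_self]
  exact sub_eq_zero.1 ((pow_eq_zero_iff (pow_pos (Fact.out : ℓ.Prime).pos i).ne').1 h2)

/-- the class of `u x₀` when `D` is normal and abelian and `x₀` has order prime to `ℓ` -/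
theorem key {ℓ : ℕ} [Fact ℓ.Prime] [CharP F ℓ] {N C D : Subgroup Γ} (hDN : NIn D N)
    (hDp : IsPGroup ℓ D) (hC : C = N ⊓ Subgroup.centralizer (D : Set Γ))
    (hab : ∀ a ∈ D, ∀ b ∈ D, a * b = b * a) {x₀ u : Γ} (hx₀ : x₀ ∈ C) (hreg : ¬ ℓ ∣ orderOf x₀)
    (hu : u ∈ D) {h : MonoidAlgebra F Γ → F} (hh : CHom C h)
    (hS : ¬ ℓ ∣ D.relIndex (Subgroup.centralizer {x₀} ⊓ N)) :
    ∃ m : ℕ, ¬ ℓ ∣ m ∧
      h (csum F (cls N (u * x₀))) = (m : F) * h (csum F (cls N x₀)) := by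
  have hℓ : ℓ.Prime := Fact.out
  have hCN : C ≤ N := by rw [hC]; exact inf_le_left
  have hCc : ∀ g ∈ C, ∀ d ∈ D, d * g = g * d := by
    intro g hg d hd
    rw [hC] at hg
    exact Subgroup.mem_centralizer_iff.1 hg.2 d hd
  have hDC : D ≤ C := by
    rw [hC]
    refine le_inf hDN.le ?_
    intro d hd
    rw [Subgroup.mem_centralizer_iff]
    intro e he
    exact hab e he d hd
  have hND : ∀ n ∈ N, ∀ d ∈ D, n * d * n⁻¹ ∈ D := hDN.nor
  have hCn : ∀ n ∈ N, ∀ g ∈ C, n * g * n⁻¹ ∈ C := by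
    intro n hn g hg
    rw [hC]
    refine ⟨N.mul_mem (N.mul_mem hn (hCN hg)) (N.inv_mem hn), ?_⟩
    change n * g * n⁻¹ ∈ Subgroup.centralizer (D : Set Γ)
    rw [Subgroup.mem_centralizer_iff]
    intro d hd
    have h1 := hND n⁻¹ (N.inv_mem hn) d hd
    have h2 := hCc g hg _ h1
    calc d * (n * g * n⁻¹) = n * ((n⁻¹ * d * n⁻¹⁻¹) * g) * n⁻¹ := by group
      _ = n * (g * (n⁻¹ * d * n⁻¹⁻¹)) * n⁻¹ := by rw [h2]
      _ = n * g * n⁻¹ * d := by group
  have hpow : ∀ d ∈ D, ∃ i : ℕ, d ^ (ℓ ^ i) = 1 := by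
    intro d hd
    obtain ⟨i, hi⟩ := hDp ⟨d, hd⟩
    exact ⟨i, by simpa using congrArg Subtype.val hi⟩
  have hord : ∀ n : Γ, ¬ ℓ ∣ orderOf (n * x₀ * n⁻¹) := by
    intro n
    have h1 : n * x₀ * n⁻¹ = MulAut.conj n x₀ := by simp
    rw [h1, MulEquiv.orderOf_eq]
    exact hreg
  -- uniqueness
  have huq : ∀ v ∈ D, ∀ w ∈ D, ∀ n ∈ N, ∀ n' ∈ N,
      v * (n * x₀ * n⁻¹) = w * (n' * x₀ * n'⁻¹) → v = w ∧ n * x₀ * n⁻¹ = n' * x₀ * n'⁻¹ := by
    intro v hv w hw n hn n' hn' he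
    obtain ⟨i, hi⟩ := hpow v hv
    obtain ⟨j, hj⟩ := hpow w hw
    exact dec_unique hℓ hi hj (hord n) (hord n') (hCc _ (hCn n hn x₀ hx₀) v hv)
      (hCc _ (hCn n' hn' x₀ hx₀) w hw) he
  set X : Finset Γ := cls N x₀ with hX
  set W : Finset Γ := cls N (u * x₀) with hW
  have hXC : ∀ y ∈ X, y ∈ C := by
    intro y hy
    obtain ⟨n, hn, rfl⟩ := mem_cls.1 hy
    exact hCn n hn x₀ hx₀
  set Df : Finset Γ := Finset.univ.filter (fun v => v ∈ D) with hDf
  have hmD : ∀ v, v ∈ Df ↔ v ∈ D := by intro v; simp [hDf]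
  set Xv : Γ → Finset Γ := fun v => X.filter (fun y => v * y ∈ W) with hXv
  have hmX : ∀ v y, y ∈ Xv v ↔ y ∈ X ∧ v * y ∈ W := by intro v y; simp [hXv]
  have hZ : ∀ v ∈ Df, csum F (Xv v) ∈ ZA F C C := by
    intro v hv
    refine csum_mem (fun g hg => hXC g ((hmX v g).1 hg).1) ?_
    intro c hc g hg
    obtain ⟨h1, h2⟩ := (hmX v g).1 hg
    refine (hmX v _).2 ⟨(cls_conj (hCN hc)).2 h1, ?_⟩
    have h3 : v * (c * g * c⁻¹) = c * (v * g) * c⁻¹ := by
      have h4 := hCc c hc v ((hmD v).1 hv)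
      calc v * (c * g * c⁻¹) = (v * c) * g * c⁻¹ := by group
        _ = (c * v) * g * c⁻¹ := by rw [h4]
        _ = _ := by group
    rw [h3]
    exact (cls_conj (hCN hc)).2 h2
  have hs : ∀ v ∈ Df, (MonoidAlgebra.single v 1 : MonoidAlgebra F Γ) ∈ ZA F C C ∧
      h (MonoidAlgebra.single v 1) = 1 := by
    intro v hv
    obtain ⟨i, hi⟩ := hpow v ((hmD v).1 hv)
    exact hom_single hh (hDC ((hmD v).1 hv)) (fun g hg => (hCc g hg v ((hmD v).1 hv)).symm) hi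
  -- first identity
  have e1 : csum F W = ∑ v ∈ Df, MonoidAlgebra.single v 1 * csum F (Xv v) := by
    apply MonoidAlgebra.ext
    ext g
    rw [coeff_csum, MonoidAlgebra.coeff_sum, Finsupp.finsetSum_apply]
    have h1 : ∀ v ∈ Df, (MonoidAlgebra.single v 1 * csum F (Xv v)).coeff g =
        if v⁻¹ * g ∈ X ∧ g ∈ W then (1 : F) else 0 := by
      intro v _
      rw [MonoidAlgebra.coeff_single_mul_apply, coeff_csum, one_mul]
      have h2 : v⁻¹ * g ∈ Xv v ↔ v⁻¹ * g ∈ X ∧ g ∈ W := by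
        rw [hmX, mul_inv_cancel_left]
      simp only [h2]
    rw [Finset.sum_congr rfl h1]
    by_cases hg : g ∈ W
    · rw [if_pos hg]
      obtain ⟨n, hn, rfl⟩ := mem_cls.1 hg
      rw [Finset.sum_eq_single (n * u * n⁻¹)]
      · rw [if_pos]
        refine ⟨?_, hg⟩
        refine mem_cls.2 ⟨n, hn, ?_⟩
        group
      · intro v hv hne
        rw [if_neg]
        rintro ⟨h2, -⟩
        obtain ⟨n', hn', h3⟩ := mem_cls.1 h2
        apply hne
        refine (huq v ((hmD v).1 hv) _ (hND n hn u hu) n' hn' n hn ?_).1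
        rw [← h3]
        group
      · intro h2
        exact absurd ((hmD _).2 (hND n hn u hu)) h2
    · rw [if_neg hg]
      symm
      apply Finset.sum_eq_zero
      intro v _
      rw [if_neg]
      rintro ⟨-, h2⟩
      exact hg h2
  -- the number
  set U : Subgroup Γ := N ⊓ Subgroup.centralizer {x₀} with hU
  have hcnt : ∀ n ∈ N, (Df.filter (fun v => v * (n * x₀ * n⁻¹) ∈ W)).card = (cls U u).card := by
    intro n hn
    symm
    refine Finset.card_bij (fun w _ => n * w * n⁻¹) ?_ ?_ ?_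
    · intro w hw
      obtain ⟨a, ha, rfl⟩ := mem_cls.1 hw
      rw [Finset.mem_filter, hmD]
      refine ⟨hND n hn _ (hND a ha.1 u hu), ?_⟩
      refine mem_cls.2 ⟨n * a, N.mul_mem hn ha.1, ?_⟩
      have h1 : a * x₀ = x₀ * a := Subgroup.mem_centralizer_singleton_iff.1 ha.2
      have h2 : a⁻¹ * x₀ = x₀ * a⁻¹ := by
        calc a⁻¹ * x₀ = a⁻¹ * (x₀ * a) * a⁻¹ := by group
          _ = a⁻¹ * (a * x₀) * a⁻¹ := by rw [h1]
          _ = x₀ * a⁻¹ := by group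
      calc n * (a * u * a⁻¹) * n⁻¹ * (n * x₀ * n⁻¹) = n * a * u * (a⁻¹ * x₀) * n⁻¹ := by group
        _ = n * a * u * (x₀ * a⁻¹) * n⁻¹ := by rw [h2]
        _ = n * a * (u * x₀) * (n * a)⁻¹ := by group
    · intro w _ w' _ he
      exact mul_left_cancel (mul_right_cancel he)
    · intro v hv
      rw [Finset.mem_filter, hmD] at hv
      obtain ⟨b, hb, h1⟩ := mem_cls.1 hv.2
      have h2 : v * (n * x₀ * n⁻¹) = (b * u * b⁻¹) * (b * x₀ * b⁻¹) := by rw [h1]; group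
      obtain ⟨h3, h4⟩ := huq v hv.1 _ (hND b hb u hu) n hn b hb h2
      have h5 : n⁻¹ * b * x₀ = x₀ * (n⁻¹ * b) := by
        calc n⁻¹ * b * x₀ = n⁻¹ * (b * x₀ * b⁻¹) * b := by group
          _ = n⁻¹ * (n * x₀ * n⁻¹) * b := by rw [h4]
          _ = x₀ * (n⁻¹ * b) := by group
      refine ⟨n⁻¹ * b * u * (n⁻¹ * b)⁻¹, ?_, ?_⟩
      · refine mem_cls.2 ⟨n⁻¹ * b, ⟨N.mul_mem (N.inv_mem hn) hb, ?_⟩, rfl⟩
        exact Subgroup.mem_centralizer_singleton_iff.2 h5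
      · rw [h3]; group
  -- second identity
  have e2 : ∑ v ∈ Df, csum F (Xv v) = (((cls U u).card : ℕ) : F) • csum F X := by
    apply MonoidAlgebra.ext
    ext g
    rw [MonoidAlgebra.coeff_sum, Finsupp.finsetSum_apply, MonoidAlgebra.coeff_smul,
      Finsupp.smul_apply, coeff_csum]
    have h1 : ∀ v ∈ Df, (csum F (Xv v)).coeff g =
        if g ∈ X ∧ v * g ∈ W then (1 : F) else 0 := by
      intro v _
      rw [coeff_csum]
      simp only [hmX]
    rw [Finset.sum_congr rfl h1]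
    by_cases hg : g ∈ X
    · obtain ⟨n, hn, rfl⟩ := mem_cls.1 hg
      have h2 : ∀ v ∈ Df, (if n * x₀ * n⁻¹ ∈ X ∧ v * (n * x₀ * n⁻¹) ∈ W then (1 : F) else 0) =
          if v * (n * x₀ * n⁻¹) ∈ W then (1 : F) else 0 := by
        intro v _
        simp only [hg, true_and]
      rw [Finset.sum_congr rfl h2, Finset.sum_boole, hcnt n hn, if_pos hg, smul_eq_mul, mul_one]
    · rw [if_neg hg, smul_zero]
      apply Finset.sum_eq_zero
      intro v _
      rw [if_neg]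
      rintro ⟨h2, -⟩
      exact hg h2
  have hXZ : csum F X ∈ ZA F C C :=
    csum_mem hXC (fun c hc g hg => (cls_conj (hCN hc)).2 hg)
  refine ⟨(cls U u).card, ?_, ?_⟩
  · rw [card_cls]
    intro hd
    have h1 : D ≤ Subgroup.centralizer {u} ⊓ U := by
      refine le_inf ?_ (le_inf hDN.le ?_)
      · intro d hd'
        exact Subgroup.mem_centralizer_singleton_iff.2 (hab d hd' u hu)
      · intro d hd'
        exact Subgroup.mem_centralizer_singleton_iff.2 (hCc x₀ hx₀ d hd')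
    apply hS
    rw [inf_comm]
    exact hd.trans (Subgroup.relIndex_dvd_of_le_left _ h1)
  · rw [e1, hom_sum hh _ _ (fun v hv => (ZA F C C).mul_mem (hs v hv).1 (hZ v hv))]
    have h1 : ∀ v ∈ Df, h (MonoidAlgebra.single v 1 * csum F (Xv v)) = h (csum F (Xv v)) := by
      intro v hv
      rw [hh.map_mul _ (hs v hv).1 _ (hZ v hv), (hs v hv).2, one_mul]
    rw [Finset.sum_congr rfl h1, ← hom_sum hh _ _ hZ, e2, hh.map_smul _ _ hXZ]

end

/-- NZ -/
theorem nz : T_NZ := by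
  intro F _ π hπ ℓ _ _ Γ _ _ K Y D hn hKD hab ξ hξ hD u hu
  have hℓ : ℓ.Prime := Fact.out
  obtain ⟨x₀, hx₀K, hreg, hx₀D, hsyl, hne⟩ := x1 F π hπ ℓ Γ K Y D hn hKD ξ hξ hD
  have hDp := hD.1
  have hDY := hD.2.1
  set N : Subgroup Γ := Y ⊓ Subgroup.normalizer (D : Set Γ) with hN
  obtain ⟨ψ, hψ, hcor⟩ := ((fST F π hπ ℓ Γ Y D).1 ξ hξ hD).1
  have hx₀C : x₀ ∈ Subgroup.centralizer (D : Set Γ) := H25.AM.centralizer_comm.2 hx₀D
  have hx₀Y : x₀ ∈ Y := hn.le hx₀K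
  have huC : u ∈ Subgroup.centralizer (D : Set Γ) := by
    rw [Subgroup.mem_centralizer_iff]
    intro d hd
    exact hab d hd u hu
  have huxC : u * x₀ ∈ Subgroup.centralizer (D : Set Γ) := Subgroup.mul_mem _ huC hx₀C
  have hcomm : u * x₀ = x₀ * u := Subgroup.mem_centralizer_iff.1 hx₀C u hu
  have hDN : NIn D N := by
    refine ⟨le_inf hDY Subgroup.le_normalizer, ?_⟩
    intro n hn' d hd
    exact (Subgroup.mem_normalizer_iff.1 hn'.2 d).1 hd
  -- the centraliser of `u x₀`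
  have hle : Subgroup.centralizer {u * x₀} ⊓ Y ≤ Subgroup.centralizer {x₀} ⊓ Y := by
    refine le_inf ?_ inf_le_right
    rintro g ⟨hg, -⟩
    obtain ⟨i, hi⟩ := hDp ⟨u, hu⟩
    have hi' : u ^ (ℓ ^ i) = 1 := by simpa using congrArg Subtype.val hi
    have h1 : g * (u * x₀) = u * x₀ * g := Subgroup.mem_centralizer_singleton_iff.1 hg
    have h2 : g * (u * x₀) ^ (ℓ ^ i) = (u * x₀) ^ (ℓ ^ i) * g :=
      ((show Commute g (u * x₀) from h1).pow_right _).eq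
    rw [(show Commute u x₀ from hcomm).mul_pow, hi', one_mul] at h2
    have hcop : (ℓ ^ i).Coprime (orderOf x₀) :=
      Nat.Coprime.pow_left _ ((Nat.Prime.coprime_iff_not_dvd hℓ).2 hreg)
    obtain ⟨a, ha⟩ := exists_pow_eq_self_of_coprime hcop
    have h3 := ((show Commute g (x₀ ^ (ℓ ^ i)) from h2).pow_right a).eq
    rw [ha] at h3
    exact Subgroup.mem_centralizer_singleton_iff.2 h3
  have hDux : D ≤ Subgroup.centralizer {u * x₀} := H25.AM.centralizer_comm.1 huxC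
  have hsyl2 : ¬ ℓ ∣ D.relIndex (Subgroup.centralizer {u * x₀} ⊓ Y) := by
    intro hd
    apply hsyl
    rw [← Subgroup.relIndex_mul_relIndex D (Subgroup.centralizer {u * x₀} ⊓ Y)
      (Subgroup.centralizer {x₀} ⊓ Y) (le_inf hDux hDY) hle]
    exact Dvd.dvd.mul_right hd _
  have hb1 := H25.AM.br_cls (F := F) le_rfl (nor_self Y) hDp hDY huxC hsyl2
  have hb2 := H25.AM.br_cls (F := F) le_rfl (nor_self Y) hDp hDY hx₀C hsyl
  rw [← hN] at hb1 hb2
  have huxY : u * x₀ ∈ Y := Y.mul_mem (hDY hu) hx₀Y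
  -- down to the centraliser
  obtain ⟨C, hC⟩ : ∃ C : Subgroup Γ, C = N ⊓ Subgroup.centralizer (D : Set Γ) := ⟨_, rfl⟩
  have hCN : C ≤ N := by rw [hC]; exact inf_le_left
  have hCn : ∀ n ∈ N, ∀ g ∈ C, n * g * n⁻¹ ∈ C := by
    intro n hn' g hg
    rw [hC] at hg ⊢
    exact ⟨N.mul_mem (N.mul_mem hn' hg.1) (N.inv_mem hn'),
      H25.AM.conj_mem_centralizer hn'.2 hg.2⟩
  have hx₀N : x₀ ∈ N := ⟨hx₀Y, H25.AM.centralizer_le_norm hx₀C⟩
  have hx₀C' : x₀ ∈ C := by rw [hC]; exact ⟨hx₀N, hx₀C⟩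
  have huxC' : u * x₀ ∈ C := by
    rw [hC]
    exact ⟨⟨huxY, H25.AM.centralizer_le_norm huxC⟩, huxC⟩
  obtain ⟨φ, hφ, hov⟩ := fE1 Γ C N hCN ψ hψ
  have hS : ¬ ℓ ∣ D.relIndex (Subgroup.centralizer {x₀} ⊓ N) := by
    intro hd
    apply hsyl
    have h1 : Subgroup.centralizer {x₀} ⊓ N ≤ Subgroup.centralizer {x₀} ⊓ Y :=
      le_inf inf_le_left (inf_le_right.trans inf_le_left)
    rw [← Subgroup.relIndex_mul_relIndex D (Subgroup.centralizer {x₀} ⊓ N)
      (Subgroup.centralizer {x₀} ⊓ Y) (le_inf hx₀D hDN.le) h1]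
    exact Dvd.dvd.mul_right hd _
  obtain ⟨m, hm, hkey⟩ := key (F := F) hDN hDp hC hab hx₀C' hreg hu (fB1 F π hπ Γ C φ hφ) hS
  have hz1 : csum F (cls N (u * x₀)) ∈ ZA F C N := csum_cls_mem hCn huxC'
  have hz2 : csum F (cls N x₀) ∈ ZA F C N := csum_cls_mem hCn hx₀C'
  have hval : lam π ξ (csum F (cls Y (u * x₀))) = (m : F) * lam π ξ (csum F (cls Y x₀)) := by
    rw [hcor _ (csum_cls_mem_self huxY), hcor _ (csum_cls_mem_self hx₀Y), hb1, hb2,
      fB4 F π hπ Γ C N hCN hCn ψ hψ φ hφ hov _ hz1, fB4 F π hπ Γ C N hCN hCn ψ hψ φ hφ hov _ hz2]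
    exact hkey
  have hne2 : lam π ξ (csum F (cls Y (u * x₀))) ≠ 0 := by
    rw [hval]
    refine mul_ne_zero ?_ hne
    intro h
    exact hm ((CharP.cast_eq_zero_iff F ℓ m).1 h)
  refine ⟨x₀, hx₀K, hne2, ?_⟩
  intro η hη hblk h0
  have h1 : lam π η (csum F (cls Y (u * x₀))) ≠ 0 := by
    rw [hblk _ (csum_cls_mem_self huxY)]
    exact hne2
  obtain ⟨-, h2⟩ := fB2 F π hπ Γ Y η hη (cls Y (u * x₀))
    (fun n hn' g hg => (cls_conj hn').2 hg)
  rw [h2] at h1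
  apply h1
  have h3 : om η (cls Y (u * x₀)) = 0 := by
    unfold om
    rw [Finset.sum_eq_zero, zero_div]
    intro g hg
    obtain ⟨v, hv, rfl⟩ := mem_cls.1 hg
    rw [(fS1 Γ Y η hη).2.1 v hv, h0]
  rw [h3]
  exact rd_zero π

end Pool.Agent.H4.SOR.NZ
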