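import Pool.Agent.H4.SOR.Targets

/-!
# SD1: the intermediate block for `D₁ = D ∩ K`
-/

open scoped Classical ComplexConjugate

namespace Pool.Agent.H4.SOR.SD1

open AMc AMe AMt Pool.Agent.H77.EA.All Pool.Agent.H77.EA Pool.Agent.H33.T2

/-- SD1 -/
theorem sd1 (KS : T_KS) (XE : T_XE) : T_SD1 := by
  intro F _ π hπ ℓ _ _ Γ _ _ J Y K D D₁ ξ θ ξ' hKJ hYJ hKY hYKD hD₁ hξ hSta hdef hθ hov hStaθ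
    hξ' hcor
  have hp : IsPGroup ℓ D := hdef.1
  have hDY : D ≤ Y := hdef.2.1
  have hKn : NIn K Y := ⟨hKY, fun u hu g hg => hKJ.nor u (hYJ.le hu) g hg⟩
  obtain ⟨⟨m, hm⟩, hKSθ⟩ := KS F π hπ ℓ Γ K Y D hKn hYKD ξ hξ hdef
  have hdefK : DefH ℓ K (lam π θ) D₁ := by
    rw [hD₁]
    exact (hKSθ θ hθ hov).2
  have hD₁D : D₁ ≤ D := by rw [hD₁]; exact inf_le_left
  have hp₁ : IsPGroup ℓ D₁ := hp.to_le hD₁D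
  have hnK : ∀ u ∈ J, Nm u K := fun u hu => s7b_nm_nin hKJ hu
  have hnY : ∀ u ∈ J, Nm u Y := fun u hu => s7b_nm_nin hYJ hu
  have hYnD₁ : ∀ g ∈ J, g ∈ Subgroup.normalizer (D : Set Γ) →
      g ∈ Subgroup.normalizer (D₁ : Set Γ) := by
    intro g hg hgD
    rw [hD₁]
    exact normalizer_of_nm (nm_inf (nm_of_normalizer hgD) (hnK g hg))
  have hYY : Y ⊓ Subgroup.normalizer (D₁ : Set Γ) ⊓ Subgroup.normalizer (D : Set Γ) =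
      Y ⊓ Subgroup.normalizer (D : Set Γ) := by
    ext g
    constructor
    · rintro ⟨⟨h1, -⟩, h2⟩
      exact ⟨h1, h2⟩
    · rintro ⟨h1, h2⟩
      exact ⟨⟨h1, hYnD₁ g (hYJ.le h1) h2⟩, h2⟩
  have hDY₁ : D ≤ Y ⊓ Subgroup.normalizer (D₁ : Set Γ) := fun d hd =>
    ⟨hDY hd, hYnD₁ d (hYJ.le (hDY hd)) (normalizer_of_nm (nm_of_mem hd))⟩
  have hirr1 : ξ' ∈ IrrS (Y ⊓ Subgroup.normalizer (D₁ : Set Γ) ⊓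
      Subgroup.normalizer (D : Set Γ)) := by rw [hYY]; exact hξ'
  obtain ⟨ξ₁, hξ₁, hcor₁⟩ := (fST F π hπ ℓ Γ (Y ⊓ Subgroup.normalizer (D₁ : Set Γ)) D).2 hp hDY₁
    ξ' hirr1
  have hST := ((fST F π hπ ℓ Γ Y D).1 ξ hξ hdef).2 ξ' hξ' hcor
  have hdef' : DefH ℓ (Y ⊓ Subgroup.normalizer (D₁ : Set Γ) ⊓ Subgroup.normalizer (D : Set Γ))
      (lam π ξ') D := by rw [hYY]; exact hST.1
  have hdef₁ : DefH ℓ (Y ⊓ Subgroup.normalizer (D₁ : Set Γ)) (lam π ξ₁) D := by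
    have h1 := (fD5 F ℓ Γ (Y ⊓ Subgroup.normalizer (D₁ : Set Γ)) D hp hDY₁ (lam π ξ')
      (fB1 F π hπ Γ _ ξ' hirr1) hdef').2
    exact AMc.DefH_congr (fun z hz => (hcor₁ z hz).symm) h1
  have hcorD₁ : Cor π Y D₁ ξ ξ₁ := by
    intro z hz
    have h1 := fD2 F Γ Y Y D₁ z hz
    rw [hcor z hz, hcor₁ _ h1, s7b_br_br hD₁D]
  -- the character of `K₁`
  obtain ⟨⟨ψ, hψ, hcorψ⟩, hSTK⟩ := (fST F π hπ ℓ Γ K D₁).1 θ hθ hdefK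
  have hUD := fUD F π hπ ℓ Γ Y K D₁ hKY hKn.nor θ hθ hdefK
    (fun u hu => hStaθ u (hYJ.le hu)) ψ hψ hcorψ
  obtain ⟨θ₁, hθ₁, hov₁, hblk₁⟩ := (hUD.2 ξ hξ ξ₁ hξ₁ hcorD₁).1 ⟨θ, hθ, hov, blk_refl _ _⟩
  have hcorθ₁ : Cor π K D₁ θ θ₁ := ((hSTK ψ hψ hcorψ).2.1 θ₁ hθ₁).2 hblk₁
  have hSTθ₁ := hSTK θ₁ hθ₁ hcorθ₁
  have hStaK₁ : Sta π (J ⊓ Subgroup.normalizer (D₁ : Set Γ))
      (K ⊓ Subgroup.normalizer (D₁ : Set Γ)) θ₁ := fun u hu =>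
    (hSTθ₁.2.2 u hu.2 (hnK u hu.1)).1 (hStaθ u hu.1)
  -- group theory for `Y₁` and `K₁`
  have hfac : ∀ g ∈ Y ⊓ Subgroup.normalizer (D₁ : Set Γ),
      ∃ k ∈ K ⊓ Subgroup.normalizer (D₁ : Set Γ), ∃ d ∈ D, g = k * d := by
    rintro g ⟨hg, hg'⟩
    obtain ⟨k, hk, d, hd, rfl⟩ := hYKD g hg
    refine ⟨k, ⟨hk, ?_⟩, d, hd, rfl⟩
    have h1 := Subgroup.mul_mem _ hg' (Subgroup.inv_mem _ (hDY₁ hd).2)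
    have e : k * d * d⁻¹ = k := by group
    rwa [e] at h1
  have hK₁Y₁ : K ⊓ Subgroup.normalizer (D₁ : Set Γ) ≤ Y ⊓ Subgroup.normalizer (D₁ : Set Γ) :=
    inf_le_inf_right _ hKY
  have hKn₁ : NIn (K ⊓ Subgroup.normalizer (D₁ : Set Γ))
      (Y ⊓ Subgroup.normalizer (D₁ : Set Γ)) :=
    ⟨hK₁Y₁, fun u hu g hg => ⟨hKn.nor u hu.1 g hg.1,
      Subgroup.mul_mem _ (Subgroup.mul_mem _ hu.2 hg.2) (Subgroup.inv_mem _ hu.2)⟩⟩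
  have hidx₁ := (KS F π hπ ℓ Γ (K ⊓ Subgroup.normalizer (D₁ : Set Γ))
    (Y ⊓ Subgroup.normalizer (D₁ : Set Γ)) D hKn₁ hfac ξ₁ hξ₁ hdef₁).1
  have hStaY₁ : Sta π (J ⊓ Subgroup.normalizer (D₁ : Set Γ))
      (Y ⊓ Subgroup.normalizer (D₁ : Set Γ)) ξ₁ := by
    intro u hu
    have hnY₁ : Nm u (Y ⊓ Subgroup.normalizer (D₁ : Set Γ)) := nm_inf (hnY u hu.1) (nm_of_mem hu.2)
    have hnK₁ : Nm u (K ⊓ Subgroup.normalizer (D₁ : Set Γ)) := nm_inf (hnK u hu.1) (nm_of_mem hu.2)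
    exact (XE F π hπ ℓ Γ (Y ⊓ Subgroup.normalizer (D₁ : Set Γ))
      (K ⊓ Subgroup.normalizer (D₁ : Set Γ)) D₁ ⟨hK₁Y₁, hKn₁.nor, hidx₁⟩ θ₁ hθ₁ hSTθ₁.1
      (fun v hv => hStaK₁ v ⟨hYJ.le hv.1, hv.2⟩)).1 ξ₁ hξ₁ (cj u ξ₁) (cj_mem fS7 hnY₁ hξ₁) θ₁ hθ₁
      (cj u θ₁) (cj_mem fS7 hnK₁ hθ₁) hov₁ (over_cj u hov₁) (blk_refl _ _) (hStaK₁ u hu)
  exact ⟨fun g hg => hYnD₁ g (hYJ.le hg.1) hg.2, hdefK, ξ₁, hξ₁, θ₁, hθ₁, hdef₁, hov₁, hcorθ₁,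
    hfac, hStaK₁, hStaY₁, hYY, hcor₁⟩

end Pool.Agent.H4.SOR.SD1
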