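import Pool.Agent.H4.SOR.NZ
import Pool.Agent.H24.T2.S7

/-!
# SE: abelian defect groups, the characters of the block restrict irreducibly to `K`
-/

open scoped Classical ComplexConjugate

namespace Pool.Agent.H4.SOR.SE

open AMc AMe AMt Pool.Agent.H77.EA.All Pool.Agent.H24.T2 Pool.Agent.H10.T2.All

section

variable {Γ : Type} [Group Γ]

/-- `Y / K` is abelian -/
theorem com_mem {K Y D : Subgroup Γ} (hn : NIn K Y) (hKD : ∀ g ∈ Y, ∃ k ∈ K, ∃ d ∈ D, g = k * d)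
    (hDY : D ≤ Y) (hab : ∀ a ∈ D, ∀ b ∈ D, a * b = b * a) {g h : Γ} (hg : g ∈ Y) (hh : h ∈ Y) :
    g * h * g⁻¹ * h⁻¹ ∈ K := by
  obtain ⟨k, hk, d, hd, rfl⟩ := hKD g hg
  obtain ⟨k', hk', d', hd', rfl⟩ := hKD h hh
  have hdY := hDY hd
  have hdY' := hDY hd'
  have h1 : d * k' * d⁻¹ ∈ K := hn.nor d hdY k' hk'
  have h2 : (d * d' * d⁻¹) * k⁻¹ * (d * d' * d⁻¹)⁻¹ ∈ K :=
    hn.nor _ (Y.mul_mem (Y.mul_mem hdY hdY') (Y.inv_mem hdY)) _ (K.inv_mem hk)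
  have e : k * d * (k' * d') * (k * d)⁻¹ * (k' * d')⁻¹ =
      k * (d * k' * d⁻¹) * ((d * d' * d⁻¹) * k⁻¹ * (d * d' * d⁻¹)⁻¹) * k'⁻¹ := by
    have h3 : d * d' * d⁻¹ = d' := by rw [hab d hd d' hd']; group
    rw [h3]
    calc k * d * (k' * d') * (k * d)⁻¹ * (k' * d')⁻¹
        = k * (d * k' * d⁻¹) * (d * d' * d⁻¹) * k⁻¹ * d'⁻¹ * k'⁻¹ := by group
      _ = _ := by rw [h3]; group
  rw [e]
  exact K.mul_mem (K.mul_mem (K.mul_mem hk h1) h2) (K.inv_mem hk')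

end

/-- SE -/
theorem se (NZ : T_NZ) (CX : T_CX) (OT : T_OT) (hE3 : T_E3) (hE7 : T_E7) : T_SE := by
  intro F _ π hπ ℓ _ _ Γ _ _ K Y D hn hKD hab ξ hξ hD η hη hblk
  have hℓ : ℓ.Prime := Fact.out
  have hDp := hD.1
  have hDY := hD.2.1
  have hcom : ∀ g ∈ Y, ∀ h ∈ Y, g * h * g⁻¹ * h⁻¹ ∈ K :=
    fun g hg h hh => com_mem hn hKD hDY hab hg hh
  -- subgroups above `K` are normal
  have hnor : ∀ M : Subgroup Γ, K ≤ M → M ≤ Y → ∀ y ∈ Y, ∀ g ∈ M, y * g * y⁻¹ ∈ M := by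
    intro M hKM hMY y hy g hg
    have h1 := M.mul_mem (hKM (hcom y hy g (hMY hg))) hg
    have h2 : y * g * y⁻¹ * g⁻¹ * g = y * g * y⁻¹ := by group
    rwa [h2] at h1
  obtain ⟨M, hM, hmax⟩ := (Set.toFinite {M : Subgroup Γ | K ≤ M ∧ M ≤ Y ∧
    ∃ ψ ∈ IrrS M, Over η ψ ∧ ∃ θ ∈ IrrS K, ∀ k ∈ K, ψ k = θ k}).exists_maximal (by
      obtain ⟨θ, hθ, hov⟩ := fE1 Γ K Y hn.le η hη
      exact ⟨K, le_rfl, hn.le, θ, hθ, hov, θ, hθ, fun _ _ => rfl⟩)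
  obtain ⟨hKM, hMY, ψ, hψ, hov, θ, hθ, hres⟩ := hM
  by_cases hMeq : M = Y
  · subst hMeq
    refine ⟨θ, hθ, fun k hk => ?_⟩
    have h1 : η = ψ := by
      by_contra hne
      apply hov
      rw [fS2 Γ M η ψ hη hψ, if_neg hne]
    rw [h1, hres k hk]
  exfalso
  -- an element of `D` outside `M`
  have hex : ∃ u₀ ∈ D, u₀ ∉ M := by
    by_contra h
    push Not at h
    apply hMeq
    refine le_antisymm hMY ?_
    intro g hg
    obtain ⟨k, hk, d, hd, rfl⟩ := hKD g hg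
    exact M.mul_mem (hKM hk) (h d hd)
  obtain ⟨u₀, hu₀D, hu₀M⟩ := hex
  have hex2 : ∃ j : ℕ, u₀ ^ (ℓ ^ j) ∈ M := by
    obtain ⟨i, hi⟩ := hDp ⟨u₀, hu₀D⟩
    have hi' : u₀ ^ (ℓ ^ i) = 1 := by simpa using congrArg Subtype.val hi
    exact ⟨i, by rw [hi']; exact M.one_mem⟩
  obtain ⟨j, hj, hjmin⟩ : ∃ j, u₀ ^ (ℓ ^ j) ∈ M ∧ ∀ i < j, u₀ ^ (ℓ ^ i) ∉ M :=
    ⟨Nat.find hex2, Nat.find_spec hex2, fun i hi => Nat.find_min hex2 hi⟩
  have hj0 : j ≠ 0 := by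
    rintro rfl
    apply hu₀M
    simpa using hj
  obtain ⟨j', rfl⟩ := Nat.exists_eq_succ_of_ne_zero hj0
  obtain ⟨u, hu⟩ : ∃ u, u = u₀ ^ (ℓ ^ j') := ⟨_, rfl⟩
  have huD : u ∈ D := by rw [hu]; exact D.pow_mem hu₀D _
  have huM : u ∉ M := by rw [hu]; exact hjmin j' (Nat.lt_succ_self j')
  have huℓ : u ^ ℓ ∈ M := by
    rw [hu, ← pow_mul, ← pow_succ]
    exact hj
  have huY := hDY huD
  obtain ⟨M₂, hM₂⟩ : ∃ M₂ : Subgroup Γ, M₂ = M ⊔ Subgroup.zpowers u := ⟨_, rfl⟩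
  have hMM₂ : M ≤ M₂ := by rw [hM₂]; exact le_sup_left
  have huM₂ : u ∈ M₂ := by rw [hM₂]; exact Subgroup.mem_sup_right (Subgroup.mem_zpowers u)
  have hM₂Y : M₂ ≤ Y := by
    rw [hM₂]
    exact sup_le hMY (by rw [Subgroup.zpowers_le]; exact huY)
  have hnM := hnor M hKM hMY
  -- the elements of `M₂`
  have hel : ∀ g ∈ M₂, ∃ c : ℕ, ∃ m ∈ M, g = u ^ c * m := by
    intro g hg
    rw [hM₂] at hg
    obtain ⟨m, hm, l, hl, rfl⟩ := s7_sup (fun l hl y hy => hnM l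
      (by
        have : Subgroup.zpowers u ≤ Y := by rw [Subgroup.zpowers_le]; exact huY
        exact this hl) y hy) g hg
    obtain ⟨c, rfl⟩ := (mem_powers_iff_mem_zpowers.2 hl : l ∈ Submonoid.powers u)
    refine ⟨c, (u ^ c)⁻¹ * m * (u ^ c)⁻¹⁻¹, hnM _ (Y.inv_mem (Y.pow_mem huY c)) m hm, ?_⟩
    show m * u ^ c = _
    group
  have hnM₂ : ∀ x ∈ M₂, ∀ g ∈ M, x * g * x⁻¹ ∈ M := fun x hx g hg => hnM x (hM₂Y hx) g hg
  obtain ⟨ψ₂, hψ₂, hov₂, hov₃⟩ := (OT Γ M M₂ Y hMM₂ hM₂Y η hη ψ hψ).1 hov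
  by_cases hinv : cj u ψ = ψ
  · -- `ψ` extends to `M₂`
    have h1 := CX Γ M M₂ ⟨hMM₂, hnM₂⟩ u huM₂ hel ψ hψ hinv ψ₂ hψ₂ hov₃
    have h2 : M₂ ≤ M := hmax ⟨hKM.trans hMM₂, hM₂Y, ψ₂, hψ₂, hov₂, θ, hθ,
      fun k hk => by rw [h1 k (hKM hk), hres k hk]⟩ hMM₂
    exact huM (h2 huM₂)
  · -- `ψ₂` vanishes outside `M`
    have hcj : ∀ m ∈ M, cj m ψ = ψ := fun m hm => HE.cj_eq_self fS1 hψ hm
    have hst : ∀ x ∈ M₂, cj x ψ = ψ → x ∈ M := by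
      intro x hx hxi
      obtain ⟨c, m, hm, rfl⟩ := hel x hx
      by_cases hc : ℓ ∣ c
      · obtain ⟨c', rfl⟩ := hc
        rw [pow_mul]
        exact M.mul_mem (M.pow_mem huℓ c') hm
      · exfalso
        apply hinv
        have h1 : cj (u ^ c) ψ = ψ := by
          rw [HE.cj_mul] at hxi
          have h2 := congrArg (cj m⁻¹) hxi
          rw [← HE.cj_mul, mul_inv_cancel, HE.cj_one, hcj _ (M.inv_mem hm)] at h2
          exact h2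
        have h3 : ∀ n : ℕ, cj ((u ^ c) ^ n) ψ = ψ := by
          intro n
          induction n with
          | zero => rw [pow_zero, HE.cj_one]
          | succ n ih => rw [pow_succ, HE.cj_mul, ih, h1]
        have h3' : ∀ n : ℕ, cj ((u ^ ℓ) ^ n) ψ = ψ := fun n => hcj _ (M.pow_mem huℓ n)
        -- Bezout
        have hcop : c.Coprime ℓ := Nat.Coprime.symm ((Nat.Prime.coprime_iff_not_dvd hℓ).2 hc)
        obtain ⟨a, -, ha⟩ := Nat.exists_mul_mod_eq_one_of_coprime hcop hℓ.one_lt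
        have h4 : c * a = ℓ * (c * a / ℓ) + 1 := by
          rw [← ha]
          exact (Nat.div_add_mod _ _).symm
        have h5 := h3 a
        rw [← pow_mul, h4, pow_succ, pow_mul, HE.cj_mul, h3'] at h5
        exact h5
    obtain ⟨hvan, -, -⟩ := hE7 Γ M M₂ hMM₂ hnM₂ ψ₂ hψ₂ ψ hψ hov₃ hst
    obtain ⟨k, hk, -, hne⟩ := NZ F π hπ ℓ Γ K Y D hn hKD hab ξ hξ hD u huD
    apply hne η hη hblk
    obtain ⟨a, t, -, -, -, -, -, hform⟩ := hE3 Γ M₂ Y hM₂Y (hnor M₂ (hKM.trans hMM₂) hM₂Y) η hη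
      ψ₂ hψ₂ hov₂
    have hukM₂ : u * k ∈ M₂ := M₂.mul_mem huM₂ (hMM₂ (hKM hk))
    have h6 := hform (u * k) hukM₂
    rw [Finset.sum_eq_zero, mul_zero] at h6
    · rcases mul_eq_zero.1 h6 with h7 | h7
      · exfalso
        have : Nat.card Y ≠ 0 := Nat.card_pos.ne'
        exact this (by exact_mod_cast h7)
      · exact h7
    · intro y _
      apply hvan
      intro h8
      have h9 := hnM (y : Γ)⁻¹ (Y.inv_mem y.2) _ h8
      have e : (y : Γ)⁻¹ * ((y : Γ) * (u * k) * (y : Γ)⁻¹) * (y : Γ)⁻¹⁻¹ = u * k := by group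
      rw [e] at h9
      apply huM
      have h10 := M.mul_mem h9 (M.inv_mem (hKM hk))
      have e2 : u * k * k⁻¹ = u := by group
      rwa [e2] at h10

end Pool.Agent.H4.SOR.SE
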