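import Pool.Agent.H4.SOR.Targets

/-!
# SU: a unit for `Y` supported on a coset of `K`
-/

open scoped Classical ComplexConjugate

namespace Pool.Agent.H4.SOR.SU

open AMc AMe AMt Pool.Agent.H77.EA.All Pool.Agent.H77.EA Pool.Agent.H33.T2

/-- SU -/
theorem su (UA : T_UA) (UV : T_UV) (VM : T_VM) : T_SU := by
  intro F _ π hπ ℓ _ _ Γ _ _ G Y K D L hKG hYG hKY hYKD hDY ξ hξ hsta hdef θ hθ hov hStaθ hL hKL
    hcopL g hg hgU
  obtain ⟨u, huG, huD, huc, -, k, hk, rfl, ζ, hζ, hζl⟩ := UA F π hπ ℓ Γ G Y K D L hKG hYG hKY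
    hYKD hDY ξ hξ hsta hdef θ hθ hov hL hKL hcopL g hg hgU
  have hnK : ∀ u ∈ G, Nm u K := fun u hu => s7b_nm_nin hKG hu
  have hnY : ∀ u ∈ G, Nm u Y := fun u hu => s7b_nm_nin hYG hu
  have hDG : D ≤ G := hDY.trans hYG.le
  have hkG : k ∈ G := hKG.le hk.1
  obtain ⟨z, hz, hzθ, hzD, -, -⟩ := UV F π hπ ℓ Γ K D θ hθ u (hnK u huG) huc hdef.1
    (fun p hp => ⟨hnK p (hDG hp), Subgroup.mem_centralizer_iff.1 huD p hp,
      hStaθ p (hDG hp)⟩) ζ hζ hζl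
  have hzK : z ∈ VS F K (u * k) := (((VM F Γ K).2.2.1 u (hnK u huG) z hz).2.2 k hk.1).1
  have hD : ∀ d ∈ D, ∀ x, z.coeff (d * x * d⁻¹) = z.coeff x := by
    intro d hd x
    have h1 := hzD d⁻¹ (D.inv_mem hd)
    have h2 := ((VM F Γ K).2.2.2.2.2.1 d⁻¹ 1 z z).2.2.2.2.2 x
    rw [h1] at h2
    rw [h2, inv_inv]
  have hzY' : z ∈ VS F Y u := by
    refine ⟨fun x hx => hKY (hz.1 x hx), fun y hy x => ?_⟩
    obtain ⟨k', hk', d, hd, rfl⟩ := hYKD y hy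
    have e : k' * d * x * (k' * d)⁻¹ = k' * (d * x * d⁻¹) * k'⁻¹ := by group
    rw [e, hz.2 k' hk', hD d hd]
  have hzY : z ∈ VS F Y (u * k) := (((VM F Γ Y).2.2.1 u (hnY u huG) z hzY').2.2 k (hKY hk.1)).1
  refine ⟨z, hzK, hzY, hzθ, ?_⟩
  have hukG : u * k ∈ G := G.mul_mem huG hkG
  have h1 : z ^ Fintype.card Γ ∈ VS F K 1 := by
    have h := ((VM F Γ K).2.2.1 _ (hnK _ hukG) z hzK).1 (Fintype.card Γ)
    rwa [pow_card_eq_one] at h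
  have h2 : z ^ Fintype.card Γ ∈ VS F Y 1 := by
    have h := ((VM F Γ Y).2.2.1 _ (hnY _ hukG) z hzY).1 (Fintype.card Γ)
    rwa [pow_card_eq_one] at h
  have h3 : z ^ Fintype.card Γ ∈ ZA F K Y := by
    refine ⟨fun x hx => ?_, fun y hy x => h2.2 y hy x⟩
    by_contra h4
    apply hx
    have h5 := h1.1 x h4
    simpa using h5
  rw [fB4 F π hπ Γ K Y hKY (fun y hy k hk => hKG.nor y (hYG.le hy) k hk) ξ hξ θ hθ hov _ h3]
  exact hzθ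

end Pool.Agent.H4.SOR.SU
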