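import Pool.Agent.H4.SOR.Targets

/-!
# TAB: the equality for an abelian defect group not contained in the normal subgroup `M`
-/

open scoped Classical ComplexConjugate

namespace Pool.Agent.H4.SOR.TAB

open AMc AMe AMt Pool.Agent.H77.EA.All Pool.Agent.H77.EA Pool.Agent.H33.T2 Pool.Agent.H24.T2
  Pool.Agent.H51.T2.C1F

section grp

variable {Γ : Type} [Group Γ] [Fintype Γ]

/-- the index of a proper subgroup -/
theorem relIndex_le_of_not {Z J G : Subgroup Γ} {n : ℕ} (hZJ : Z ≤ J) (hJG : J ≤ G)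
    (hne : ¬ G ≤ J) (h : Z.relIndex G ≤ n + 1) : Z.relIndex J ≤ n := by
  have h1 := Subgroup.relIndex_mul_relIndex Z J G hZJ hJG
  have h2 : J.relIndex G ≠ 1 := fun h => hne (Subgroup.relIndex_eq_one.1 h)
  have h3 : J.relIndex G ≠ 0 := Subgroup.index_ne_zero_of_finite
  have h4 : Z.relIndex J ≠ 0 := Subgroup.index_ne_zero_of_finite
  have h5 : 2 ≤ J.relIndex G := by omega
  have h6 : Z.relIndex J * 2 ≤ Z.relIndex G := by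
    rw [← h1]
    exact Nat.mul_le_mul_left _ h5
  omega

/-- the index of `Y` in `Y ⟨x, y⟩` is prime to `ℓ` -/
theorem cop_sup {ℓ : ℕ} {M Y G D L : Subgroup Γ} {x y : Γ} (hYG : NIn Y G) (hMY : M ≤ Y)
    (hL : L ≤ G) (hML : M ⊓ Subgroup.normalizer (D : Set Γ) ≤ L)
    (hcopL : ¬ ℓ ∣ (M ⊓ Subgroup.normalizer (D : Set Γ)).relIndex L)
    (hx : x ∈ L) (hy : y ∈ L) : ¬ ℓ ∣ Y.relIndex (Y ⊔ Subgroup.closure {x, y}) := by
  have hclG : Subgroup.closure {x, y} ≤ L := by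
    rw [Subgroup.closure_le]
    rintro w (rfl | rfl)
    · exact hx
    · exact hy
  obtain ⟨C', hC'⟩ : ∃ C' : Subgroup Γ, C' = M ⊓ Subgroup.normalizer (D : Set Γ) ⊔
      Subgroup.closure {x, y} := ⟨_, rfl⟩
  have hC'L : C' ≤ L := by
    rw [hC']
    exact sup_le hML hclG
  have hC'G : C' ≤ G := hC'L.trans hL
  have hGe : Y ⊔ Subgroup.closure {x, y} = Y ⊔ C' := by
    refine le_antisymm (sup_le_sup_left (by rw [hC']; exact le_sup_right) Y) ?_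
    refine sup_le le_sup_left ?_
    rw [hC']
    exact sup_le (inf_le_left.trans (hMY.trans le_sup_left)) le_sup_right
  have e1 : Y.relIndex (Y ⊔ Subgroup.closure {x, y}) = Y.relIndex C' := by
    rw [hGe]
    exact relIndex_sup hYG hC'G
  have hm := Subgroup.relIndex_mul_relIndex (M ⊓ Subgroup.normalizer (D : Set Γ)) C' L
    (by rw [hC']; exact le_sup_left) hC'L
  rw [e1]
  intro hd
  exact hcopL ((hd.trans (Subgroup.relIndex_dvd_of_le_left C' (inf_le_left.trans hMY))).trans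
    (Dvd.intro _ hm))

end grp

/-- TAB -/
theorem tab (AS : T_AS) (SU : T_SU) (SD1 : T_SD1) (SQ : T_SQ) (TT2 : T_TT2) (NL : T_NL)
    (RC : T_RC) (GR : T_GR) (VM : T_VM) (OT : T_OT) : T_TAB := by
  intro F _ π hπ ℓ _ _ 𝓓 n Γ _ _ G D Z M ν χ ψ R hM hZM hne hab hDM
  have hDG : D ≤ G := R.def'.2.1
  refine AS F π hπ ℓ 𝓓 n Γ G D Z M ν χ ψ R hM hZM hne ?_
  intro ξ hξ hov hdef ξ' hξ' hcorY
  refine ⟨G ⊓ Subgroup.normalizer (D : Set Γ), le_rfl, inf_le_inf_right _ hM.le,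
    fun g hg => ⟨1, Subgroup.one_mem _, by simpa using hg⟩, ?_⟩
  intro L hL hML hcopL x hx y hy hxyU hG
  have hsup : ∀ g ∈ M ⊔ D, ∃ k ∈ M, ∃ d ∈ D, g = k * d :=
    s7_sup (fun d hd k hk => hM.nor d (hDG hd) k hk)
  have hYG : NIn (M ⊔ D) G := by
    rw [sup_comm]
    exact R.dk M hM hZM hne
  have hMY : M ≤ M ⊔ D := le_sup_left
  have hDY : D ≤ M ⊔ D := le_sup_right
  obtain ⟨Y, hY⟩ : ∃ Y : Subgroup Γ, Y = M ⊔ D := ⟨_, rfl⟩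
  rw [← hY] at hξ hdef hξ' hcorY hxyU hG hsup hYG hMY hDY ⊢
  have hZY : Z ≤ Y := hZM.trans hMY
  have hsta : Sta π G Y ξ := R.sta _ hYG hZY ξ hξ hov
  have hxG : x ∈ G := (hL hx).1
  have hyG : y ∈ G := (hL hy).1
  have hcop : ¬ ℓ ∣ Y.relIndex G := by
    have h := cop_sup (ℓ := ℓ) hYG hMY (hL.trans inf_le_left) hML hcopL hx hy
    rwa [← hG] at h
  -- the character of `M`
  obtain ⟨θ, hθ, hovθ⟩ := fE1 Γ M Y hMY ξ hξ
  have hStaθ : Sta π G M θ := R.sta M hM hZM θ hθ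
    ((OT Γ M Y G hMY hYG.le χ R.irr θ hθ).2 ⟨ξ, hξ, hov, hovθ⟩)
  -- the element of `L`
  obtain ⟨c, hc⟩ : ∃ c, c = x * y * x⁻¹ * y⁻¹ := ⟨_, rfl⟩
  have hcomm : ∀ N : Subgroup Γ, x ∈ N → y ∈ N → c ∈ N := fun N h1 h2 => by
    rw [hc]
    exact N.mul_mem (N.mul_mem (N.mul_mem h1 h2) (N.inv_mem h1)) (N.inv_mem h2)
  obtain ⟨z, hzM, hzY, hzθ, hzξ⟩ := SU F π hπ ℓ Γ G Y M D L hM hYG hMY hsup hDY ξ hξ hsta hdef
    θ hθ hovθ hStaθ hL hML hcopL c (hcomm L hx hy) (by rw [hc]; exact hxyU)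
  have hRC := (RC F π hπ ℓ Γ G Y D D Z ν ξ ξ' hYG hξ hsta R.def'.1 hDY hξ' hcorY x (hL hx) y
    (hL hy) hxyU).2.2.2
  rw [hc] at hzM hzY
  refine hRC z hzY hzξ ?_
  -- the intermediate block
  obtain ⟨D₁, hD₁⟩ : ∃ D₁ : Subgroup Γ, D₁ = D ⊓ M := ⟨_, rfl⟩
  obtain ⟨-, hdefM, ξ₁, hξ₁, θ₁, hθ₁, hdef₁, hov₁, hcorθ, hfac₁, hStaM₁, hStaY₁, hYY, hcor₁⟩ :=
    SD1 F π hπ ℓ Γ G Y M D D₁ ξ θ ξ' hM hYG hMY hsup hD₁ hξ hsta hdef hθ hovθ hStaθ hξ' hcorY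
  have hD₁D : D₁ ≤ D := by rw [hD₁]; exact inf_le_left
  have hp : IsPGroup ℓ D := hdef.1
  have hp₁ : IsPGroup ℓ D₁ := hp.to_le hD₁D
  have hD₁G : D₁ ≤ G := hD₁D.trans hDG
  have hnD₁ : ∀ u ∈ G, u ∈ Subgroup.normalizer (D : Set Γ) →
      u ∈ Subgroup.normalizer (D₁ : Set Γ) := by
    intro u hu huD
    rw [hD₁]
    exact normalizer_of_nm (nm_inf (nm_of_normalizer huD) (s7b_nm_nin hM hu))
  have hxN₁ : x ∈ Subgroup.normalizer (D₁ : Set Γ) := hnD₁ x hxG (hL hx).2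
  have hyN₁ : y ∈ Subgroup.normalizer (D₁ : Set Γ) := hnD₁ y hyG (hL hy).2
  have hcls₁ : 𝓓 D₁ := R.cl.sub D₁ D (Subgroup.inclusion hD₁D)
    (Subgroup.inclusion_injective hD₁D) R.cls
  have hZN₁ : Z ≤ Subgroup.normalizer (D₁ : Set Γ) := by
    intro w hw
    apply s7b_centralizer_normalizer
    rw [Subgroup.mem_centralizer_iff]
    intro d hd
    exact (R.cen.cen w hw d (hD₁G hd)).symm
  obtain ⟨G₁, hG₁⟩ : ∃ G₁ : Subgroup Γ, G₁ = G ⊓ Subgroup.normalizer (D₁ : Set Γ) := ⟨_, rfl⟩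
  have hG₁G : G₁ ≤ G := by rw [hG₁]; exact inf_le_left
  have hxG₁ : x ∈ G₁ := by rw [hG₁]; exact ⟨hxG, hxN₁⟩
  have hyG₁ : y ∈ G₁ := by rw [hG₁]; exact ⟨hyG, hyN₁⟩
  obtain ⟨M₁, hM₁⟩ : ∃ M₁ : Subgroup Γ, M₁ = M ⊓ Subgroup.normalizer (D₁ : Set Γ) := ⟨_, rfl⟩
  obtain ⟨Y₁, hY₁⟩ : ∃ Y₁ : Subgroup Γ, Y₁ = Y ⊓ Subgroup.normalizer (D₁ : Set Γ) := ⟨_, rfl⟩
  have hzM₁ : br D₁ z ∈ VS F M₁ (x * y * x⁻¹ * y⁻¹) := by
    rw [hM₁]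
    exact s7b_br_VS (by rw [← hc]; exact hcomm _ hxN₁ hyN₁) hzM
  have hzY₁ : br D₁ z ∈ VS F Y₁ (x * y * x⁻¹ * y⁻¹) := by
    rw [hY₁]
    exact s7b_br_VS (by rw [← hc]; exact hcomm _ hxN₁ hyN₁) hzY
  have hM₁G₁ : NIn M₁ G₁ := by
    rw [hM₁, hG₁]
    exact ⟨inf_le_inf_right _ hM.le, fun u hu g hg => ⟨hM.nor u hu.1 g hg.1,
      Subgroup.mul_mem _ (Subgroup.mul_mem _ hu.2 hg.2) (Subgroup.inv_mem _ hu.2)⟩⟩
  have hY₁G₁ : NIn Y₁ G₁ := by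
    rw [hY₁, hG₁]
    exact ⟨inf_le_inf_right _ hYG.le, fun u hu g hg => ⟨hYG.nor u hu.1 g hg.1,
      Subgroup.mul_mem _ (Subgroup.mul_mem _ hu.2 hg.2) (Subgroup.inv_mem _ hu.2)⟩⟩
  have hZM₁ : Z ≤ M₁ := by rw [hM₁]; exact le_inf hZM hZN₁
  have hM₁Y₁ : M₁ ≤ Y₁ := by rw [hM₁, hY₁]; exact inf_le_inf_right _ hMY
  have hcop₁ : ¬ ℓ ∣ Y₁.relIndex G₁ := by
    have hYG₁ : Y ⊓ G₁ = Y₁ := by
      rw [hY₁, hG₁]
      apply le_antisymm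
      · exact le_inf inf_le_left (inf_le_right.trans inf_le_right)
      · exact le_inf inf_le_left (inf_le_inf_right _ hYG.le)
    have h1 : Y.relIndex G₁ = Y₁.relIndex G₁ := by
      rw [← hYG₁, Subgroup.inf_relIndex_right]
    rw [← h1]
    exact fun h => hcop (h.trans (s7b_dvd hYG hG₁G))
  have hcenG₁ : Cen G₁ Z ν := ⟨(hZM₁.trans hM₁Y₁).trans hY₁G₁.le,
    fun z hz g hg => R.cen.cen z hz g (hG₁G hg), R.cen.one, R.cen.mul⟩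
  rw [← hY₁] at hξ₁ hdef₁ hfac₁ hStaY₁ hYY hcor₁
  rw [← hM₁] at hθ₁ hfac₁ hStaM₁
  rw [← hG₁] at hStaM₁ hStaY₁
  have hDM₁ : D ⊓ M₁ = D₁ := by
    rw [hM₁]
    apply le_antisymm
    · rw [hD₁]
      exact le_inf inf_le_left (inf_le_right.trans inf_le_left)
    · refine le_inf hD₁D (le_inf (by rw [hD₁]; exact inf_le_right) ?_)
      exact fun d hd => normalizer_of_nm (nm_of_mem hd)
  -- the four equalities
  have q1 := SQ F π hπ ℓ Γ G Y M D Z ν ξ θ x y hM hYG hMY hcop R.cen hZM hsup hab hξ hsta hdef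
    hθ hovθ hxG hyG z hzM hzY
  have q2 := SQ F π hπ ℓ Γ G₁ Y₁ M₁ D Z ν ξ₁ θ₁ x y hM₁G₁ hY₁G₁ hM₁Y₁ hcop₁ hcenG₁ hZM₁ hfac₁
    hab hξ₁ hStaY₁ hdef₁ hθ₁ hov₁ hxG₁ hyG₁ (br D₁ z) hzM₁ hzY₁
  rw [hDM₁] at q2
  rw [← hD₁] at q1
  -- `M`
  obtain ⟨J, hJ⟩ : ∃ J : Subgroup Γ, J = M ⊔ Subgroup.closure {x, y} := ⟨_, rfl⟩
  have hMJ : M ≤ J := by rw [hJ]; exact le_sup_left
  have hclJ : Subgroup.closure {x, y} ≤ J := by rw [hJ]; exact le_sup_right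
  have hxJ : x ∈ J := hclJ (Subgroup.subset_closure (Set.mem_insert _ _))
  have hyJ : y ∈ J := hclJ (Subgroup.subset_closure (Set.mem_insert_of_mem _ rfl))
  have hJG : J ≤ G := by
    rw [hJ]
    refine sup_le hM.le ?_
    rw [Subgroup.closure_le]
    rintro w (rfl | rfl)
    · exact hxG
    · exact hyG
  have hMnJ : NIn M J := ⟨hMJ, fun u hu g hg => hM.nor u (hJG hu) g hg⟩
  have hcopJ : ¬ ℓ ∣ M.relIndex J := by
    rw [hJ]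
    exact cop_sup hM le_rfl (hL.trans inf_le_left) hML hcopL hx hy
  have hGJ : ¬ G ≤ J := by
    intro h
    apply hDM
    intro d hd
    -- `d` has `ℓ`-power order and index prime to `ℓ`
    have h1 : d ^ (M.relIndex J) ∈ M := s7b_pow hMnJ (h (hDG hd))
    obtain ⟨i, hi⟩ := hp ⟨d, hd⟩
    have hi' : d ^ (ℓ ^ i) = 1 := by simpa using congrArg Subtype.val hi
    have hco : Nat.Coprime (ℓ ^ i) (M.relIndex J) :=
      Nat.Coprime.pow_left i (((Fact.out : ℓ.Prime).coprime_iff_not_dvd).2 hcopJ)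
    have h2 : (M.relIndex J : ℤ) * (Nat.gcdB (ℓ ^ i) (M.relIndex J)) +
        ((ℓ ^ i : ℕ) : ℤ) * (Nat.gcdA (ℓ ^ i) (M.relIndex J)) = 1 := by
      have h3 := Nat.gcd_eq_gcd_ab (ℓ ^ i) (M.relIndex J)
      rw [hco] at h3
      push_cast at h3 ⊢
      linarith
    have h3 : d = (d ^ (M.relIndex J)) ^ (Nat.gcdB (ℓ ^ i) (M.relIndex J)) *
        (d ^ (ℓ ^ i)) ^ (Nat.gcdA (ℓ ^ i) (M.relIndex J)) := by
      calc d = d ^ (1 : ℤ) := (zpow_one d).symm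
        _ = _ := by
          rw [← h2, zpow_add, zpow_mul, zpow_mul, zpow_natCast, zpow_natCast]
    rw [h3, hi', one_zpow, mul_one]
    exact M.zpow_mem h1 _
  have hStaJ : Sta π J M θ := fun u hu => hStaθ u (hJG hu)
  rw [hM₁] at hθ₁
  have hRDM : RD π ℓ 𝓓 n J M D₁ Z ν θ θ₁ :=
    { am := R.am
      cl := R.cl
      nin := hMnJ
      cop := hcopJ
      cen := ⟨hZM.trans hMJ, fun z hz g hg => R.cen.cen z hz g (hJG hg), R.cen.one, R.cen.mul⟩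
      ZY := hZM
      idx := relIndex_le_of_not (hZM.trans hMJ) hJG hGJ R.idx
      irr := hθ
      sta := hStaJ
      def' := hdefM
      cls := hcls₁
      irr' := hθ₁
      cor := hcorθ }
  have hcJ : x * y * x⁻¹ * y⁻¹ ∈ GB π M J θ :=
    ((GR F π hπ ℓ Γ M J hMnJ θ hθ hStaJ).2.2.1 _).2 ⟨by rw [← hc]; exact hcomm J hxJ hyJ, z, hzM,
      hzθ⟩
  have q3 := TT2 F π hπ ℓ 𝓓 n Γ J M D₁ Z ν θ θ₁ hRDM x ⟨hxJ, hxN₁⟩ y ⟨hyJ, hyN₁⟩ hcJ z hzM hzθ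
  rw [← hM₁] at q3
  -- `Y₁`
  have hGN : ¬ G ≤ G₁ := by
    intro h
    have h1 : NIn D₁ G := ⟨hD₁G, fun u hu g hg => by
      have h2 := h hu
      rw [hG₁] at h2
      exact (nm_of_normalizer h2.2 g).2 hg⟩
    have h2 := (R.zl D₁ h1 hp₁).1
    rw [hD₁] at h2
    exact R.int M hM hZM hne h2
  have hξ'₁ : ξ' ∈ IrrS (Y₁ ⊓ Subgroup.normalizer (D : Set Γ)) := by rw [hYY]; exact hξ'
  have hRDY : RD π ℓ 𝓓 n G₁ Y₁ D Z ν ξ₁ ξ' :=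
    { am := R.am
      cl := R.cl
      nin := hY₁G₁
      cop := hcop₁
      cen := hcenG₁
      ZY := hZM₁.trans hM₁Y₁
      idx := relIndex_le_of_not hcenG₁.le hG₁G hGN R.idx
      irr := hξ₁
      sta := hStaY₁
      def' := hdef₁
      cls := R.cls
      irr' := hξ'₁
      cor := hcor₁ }
  have hnmY : ∀ u ∈ G, Nm u Y := fun u hu => s7b_nm_nin hYG hu
  have hnmY₁ : ∀ u ∈ G₁, Nm u Y₁ := fun u hu => s7b_nm_nin hY₁G₁ hu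
  have hzN : z ^ Fintype.card Γ ∈ ZA F Y Y := by
    have h1 := ((VM F Γ Y).2.2.1 _ (hnmY _ (by rw [← hc]; exact hcomm G hxG hyG)) z hzY).1
      (Fintype.card Γ)
    rw [pow_card_eq_one] at h1
    have h2 := (VM F Γ Y).2.2.2.2.1
    rw [h2] at h1
    exact h1
  have hzN₁ : br D₁ z ^ Fintype.card Γ ∈ ZA F Y₁ Y₁ := by
    have h1 := ((VM F Γ Y₁).2.2.1 _ (hnmY₁ _ (by rw [← hc]; exact hcomm G₁ hxG₁ hyG₁)) (br D₁ z)
      hzY₁).1 (Fintype.card Γ)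
    rw [pow_card_eq_one] at h1
    have h2 := (VM F Γ Y₁).2.2.2.2.1
    rw [h2] at h1
    exact h1
  have hzA : z ∈ ZA F ⊤ D₁ :=
    ⟨fun g hg => absurd (Subgroup.mem_top g) hg, fun k hk g => hzY.2 k (hDY (hD₁D hk)) g⟩
  have hu₁ : lam π ξ₁ (br D₁ z ^ Fintype.card Γ) ≠ 0 := by
    have h1 := hcor₁ _ hzN₁
    have h2 := hcorY _ hzN
    rw [h1, ← s7b_br_pow hp₁ hzA, s7b_br_br hD₁D, ← h2]
    exact hzξ
  have hcY₁ : x * y * x⁻¹ * y⁻¹ ∈ GB π Y₁ G₁ ξ₁ :=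
    ((GR F π hπ ℓ Γ Y₁ G₁ hY₁G₁ ξ₁ hξ₁ hStaY₁).2.2.1 _).2
      ⟨by rw [← hc]; exact hcomm G₁ hxG₁ hyG₁, _, hzY₁, hu₁⟩
  have q4 := TT2 F π hπ ℓ 𝓓 n Γ G₁ Y₁ D Z ν ξ₁ ξ' hRDY x ⟨hxG₁, (hL hx).2⟩ y ⟨hyG₁, (hL hy).2⟩
    hcY₁ _ hzY₁ hu₁
  rw [hYY, s7b_br_br hD₁D] at q4
  -- the numbers of linear characters
  have hDY₁ : D ≤ Y₁ := hdef₁.2.1
  have q5 := NL Γ M Y Y₁ x y ⟨hMY, fun u hu g hg => hM.nor u (hYG.le hu) g hg⟩
    (by rw [hY₁]; exact inf_le_left)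
    (fun g hg => by
      obtain ⟨k, hk, d, hd, rfl⟩ := hsup g hg
      refine ⟨k⁻¹, M.inv_mem hk, ?_⟩
      have e : k⁻¹ * (k * d) = d := by group
      rw [e]
      exact hDY₁ hd)
    (s7b_nm_nin hM hxG) (s7b_nm_nin hM hyG) (hnmY x hxG) (hnmY y hyG) (hnmY₁ x hxG₁)
    (hnmY₁ y hyG₁)
  have hMY₁ : M ⊓ Y₁ = M₁ := by
    rw [hY₁, hM₁]
    apply le_antisymm
    · exact le_inf inf_le_left (inf_le_right.trans inf_le_right)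
    · exact le_inf inf_le_left (inf_le_inf_right _ hMY)
  rw [hMY₁] at q5
  rw [q1, q3, q5, ← q2, q4]

end Pool.Agent.H4.SOR.TAB
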